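import Pool.Agent.H98.KS.Targets3

/-!
Module CI of board ks_modules (MP_ff41bc_an): the circle method identity.
-/

set_option autoImplicit false

open scoped BigOperators

namespace Pool.Agent.H34.KS

open Pool.Agent.H98.KS

theorem ee_orth (m l : ℕ) :
    ∫ θ in (0 : ℝ)..1, ee (-(θ * l)) * ee (θ * m) = if m = l then (1 : ℂ) else 0 := by
  have h0 : ∀ θ : ℝ, ee (-(θ * l)) * ee (θ * m) =
      Complex.exp ((2 * Real.pi * ((m : ℂ) - l) * Complex.I) * θ) := by
    intro θ
    unfold ee
    rw [← Complex.exp_add]
    congr 1
    push_cast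
    ring
  simp only [h0]
  by_cases h : m = l
  · subst h
    simp
  · rw [if_neg h]
    have hne : (2 * Real.pi * ((m : ℂ) - l) * Complex.I) ≠ 0 := by
      have h1 : ((m : ℂ) - l) ≠ 0 := by
        rw [sub_ne_zero]
        exact_mod_cast h
      have h2 : (Real.pi : ℂ) ≠ 0 := by exact_mod_cast Real.pi_ne_zero
      simp [h1, h2, Complex.I_ne_zero]
    rw [integral_exp_mul_complex hne]
    have h3 : Complex.exp ((2 * Real.pi * ((m : ℂ) - l) * Complex.I) * (1 : ℝ)) = 1 := by
      have h4 : (2 * Real.pi * ((m : ℂ) - l) * Complex.I) * (1 : ℝ) =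
          (((m : ℤ) - (l : ℤ) : ℤ) : ℂ) * (2 * Real.pi * Complex.I) := by
        push_cast
        ring
      rw [h4]
      exact Complex.exp_int_mul_two_pi_mul_I _
    rw [h3]
    simp

theorem ee_cont : Continuous ee := by
  unfold ee
  fun_prop

theorem ks_CI : T_CI := by
  intro k d X l F x hk hl
  unfold KF cnt
  simp only [Finset.mul_sum]
  rw [intervalIntegral.integral_finsetSum]
  · simp only [ee_orth]
    rw [← Finset.sum_filter, Finset.sum_const, nsmul_eq_mul, mul_one, Finset.filter_filter]
    congr 2
    refine Finset.filter_congr ?_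
    intro y _
    constructor
    · intro h
      refine ⟨?_, h⟩
      intro i
      have h1 : (x i - y i).natAbs ^ k ≤ X ^ k := by
        calc (x i - y i).natAbs ^ k ≤ pw k (x - y) := by
              unfold pw
              exact Finset.single_le_sum (f := fun i => ((x - y) i).natAbs ^ k)
                (fun _ _ => Nat.zero_le _) (Finset.mem_univ i)
          _ = l := h
          _ ≤ X ^ k := hl
      have h2 : (x i - y i).natAbs ≤ X := (Nat.pow_le_pow_iff_left (by omega)).1 h1
      rw [← Int.natCast_natAbs]
      exact_mod_cast h2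
    · exact fun h => h.2
  · intro y _
    refine Continuous.intervalIntegrable ?_ _ _
    exact (ee_cont.comp (by fun_prop)).mul (ee_cont.comp (by fun_prop))

end Pool.Agent.H34.KS
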