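import Pool.Agent.H98.KS.Targets3

/-!
Module UK of board ks_modules (MP_ff41bc_an): the multiplier of the kernel `uk`.
-/

set_option autoImplicit false

open scoped BigOperators

namespace Pool.Agent.H34.KS

open Pool.Agent.H98.KS

theorem ee_add (x y : ℝ) : ee (x + y) = ee x * ee y := by
  unfold ee
  rw [← Complex.exp_add]
  congr 1
  push_cast
  ring

theorem shift_sum (q J R : ℕ) (c : ℤ → ℂ) (ξ : ℝ) (hc : ∀ n : ℤ, (q : ℤ) ≤ |n| → c n = 0)
    (hR : q * (J + 1) ≤ R) (j : ℤ) (hj : j ∈ Finset.Icc (-(J : ℤ)) J) :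
    ∑ n ∈ Finset.Icc (-(R : ℤ)) R, c (n - q * j) * ee (-(n * ξ)) =
      ee (-(q * j * ξ)) * vs q c ξ := by
  rw [Finset.mem_Icc] at hj
  have hR' : (q : ℤ) * ((J : ℤ) + 1) ≤ R := by exact_mod_cast hR
  have hq0 : (0 : ℤ) ≤ q := by positivity
  have h1 : (q : ℤ) * j ≤ q * J := mul_le_mul_of_nonneg_left hj.2 hq0
  have h2 : (q : ℤ) * (-J) ≤ q * j := mul_le_mul_of_nonneg_left hj.1 hq0
  unfold vs
  rw [Finset.mul_sum]
  have h3 : ∑ m ∈ Finset.Icc (-(q : ℤ)) q, ee (-(q * j * ξ)) * (c m * ee (-(m * ξ))) =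
      ∑ n ∈ (Finset.Icc (-(q : ℤ)) q).map (addRightEmbedding ((q : ℤ) * j)),
        c (n - q * j) * ee (-(n * ξ)) := by
    rw [Finset.sum_map]
    refine Finset.sum_congr rfl ?_
    intro m _
    simp only [addRightEmbedding_apply]
    have e1 : m + (q : ℤ) * j - q * j = m := by ring
    have e2 : (-(((m + (q : ℤ) * j : ℤ) : ℝ) * ξ)) = -(q * j * ξ) + -(m * ξ) := by
      push_cast
      ring
    rw [e1, e2, ee_add]
    ring
  rw [h3]
  symm
  refine Finset.sum_subset ?_ ?_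
  · intro n hn
    rw [Finset.mem_map] at hn
    obtain ⟨m, hm, rfl⟩ := hn
    rw [Finset.mem_Icc] at hm
    simp only [addRightEmbedding_apply, Finset.mem_Icc]
    constructor <;> linarith [hm.1, hm.2]
  · intro n _ hn
    have h4 : c (n - q * j) = 0 := by
      apply hc
      by_contra hlt
      rw [not_le, abs_lt] at hlt
      apply hn
      rw [Finset.mem_map]
      refine ⟨n - q * j, ?_, ?_⟩
      · rw [Finset.mem_Icc]
        exact ⟨hlt.1.le, hlt.2.le⟩
      · simp only [addRightEmbedding_apply]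
        ring
    rw [h4, zero_mul]

theorem ks_UK : T_UK := by
  intro q J R z c ξ _ hc hR
  have h1 : ∀ n : ℤ, uk q J z c n * ee (-(n * ξ)) =
      z * (1 / (2 * (J : ℂ) + 1)) *
        ∑ j ∈ Finset.Icc (-(J : ℤ)) J, c (n - q * j) * ee (-(n * ξ)) := by
    intro n
    unfold uk
    rw [mul_assoc, Finset.sum_mul]
  rw [Finset.sum_congr rfl (fun n _ => h1 n), ← Finset.mul_sum, Finset.sum_comm,
    Finset.sum_congr rfl (fun j hj => shift_sum q J R c ξ hc hR j hj), ← Finset.sum_mul]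
  unfold aX
  ring

end Pool.Agent.H34.KS
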